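import Pool.Agent.Lib.MP_4eed4e_an_XN.QEnd

/-! MP_4eed4e_an: almost every simple polygon with `n` vertices has, up to congruence, only finitely
many isospectral companions among all bounded open sets whose boundary is a plane straight-line
graph with at most `n` vertices, and finitely many eigenvalues suffice.

The definitions `E2`, `eig` are in `Pool/Agent/Lib/MP_4eed4e_an_P/PDefs.lean`, the definitions
`Gr`, `SLG`, `Fig`, `Poly`, `cyc` are in `Pool/Agent/Lib/MP_4eed4e_an_X/XPub.lean`. -/

namespace Pool.Agent.Results.MP_4eed4e_an.FinitePolygonal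

open MeasureTheory Set Pool.Agent.MP4eed4eP Pool.Agent.MP4eed4eX

/-- There is an open set `U` of full measure in the set of the simple closed `n`-gons such that
every `p ∈ U` has exactly one inside `D`, and finitely many Dirichlet eigenvalues of `D` determine
a bounded open set whose boundary is a plane straight-line graph with at most `n` vertices up to
finitely many possibilities, all of them isospectral to `D`. -/
theorem result (n : ℕ) (hn : 3 ≤ n) :
    ∃ U : Set (Fin n → E2), IsOpen U ∧ U ⊆ {p | SLG p (cyc n)} ∧
      volume ({p | SLG p (cyc n)} \ U) = 0 ∧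
      ∀ p ∈ U, ∃ D : Set E2, (Fig D p (cyc n) ∧ ∀ D', Fig D' p (cyc n) → D' = D) ∧
        ∃ (N : ℕ) (F : Set (Set E2)), F.Finite ∧
          (∀ K ∈ F, Poly n K ∧ ∀ k, eig K k = eig D k) ∧
          ∀ D', Poly n D' → (∀ k ≤ N, eig D' k = eig D k) →
            ∃ K ∈ F, ∃ φ : E2 ≃ᵢ E2, φ '' D' = K :=
  N.finite_polygonal' n hn

end Pool.Agent.Results.MP_4eed4e_an.FinitePolygonal
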