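import Pool.Agent.Lib.MP_4eed4e_an_RG.GFinal

/-! MP_4eed4e_an: inside the class of rectilinear domains without axis-parallel diagonals every
isospectral class consists of finitely many congruence classes.

The definitions (`RectDomain`, `ReflexPt`, `HasSpectrum`) are in
`Pool/Agent/Lib/MP_4eed4e_an_R/Defs.lean`, `NoDiag` is in
`Pool/Agent/Lib/MP_4eed4e_an_RG/GDefs.lean`; the plane is `ℝ × ℝ`. -/

namespace Pool.Agent.Results.MP_4eed4e_an.FiniteRectilinear

open Pool.Agent.MP4eed4eR Pool.Agent.MP4eed4eR.G

/-- For every sequence `lam` there is a finite family of plane sets such that every rectilinear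
domain without axis-parallel diagonals between reflex corners whose Dirichlet spectrum is `lam`
is a translate of a member. -/
theorem result (lam : ℕ → ℝ) :
    ∃ F : Set (Set (ℝ × ℝ)), F.Finite ∧ ∀ D : Set (ℝ × ℝ), RectDomain D → NoDiag D →
      HasSpectrum D lam → ∃ E ∈ F, ∃ c : ℝ × ℝ, D = (fun q => q + c) '' E :=
  G.finite_spectrum lam

end Pool.Agent.Results.MP_4eed4e_an.FiniteRectilinear
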