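import Pool.Agent.Lib.MP_4eed4e_an.Main

/-! MP_4eed4e_an: the transplantation classes of polygonal plane domains are finite.

The definitions (`Tile`, `Tiling`, `Tiling.op`, `Transplantable`, `SingularCorner`) are in
`Pool/Agent/Lib/MP_4eed4e_an/Defs.lean`; the plane is `ℂ`. -/

namespace Pool.Agent.Results.MP_4eed4e_an.FiniteTransplantationClasses

open Pool.Agent.MP4eed4e

/-- If `D` has a corner whose angle is not of the form `π / j`, then the whole equivalence class
of `D` under the relation generated by transplantability contains only finitely many domains up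
to congruence. -/
theorem result (D : Set ℂ) (h : SingularCorner D) :
    ∃ F : Set (Set ℂ), F.Finite ∧ ∀ D' : Set ℂ, Relation.EqvGen Transplantable D D' →
      ∃ K ∈ F, ∃ φ : ℂ ≃ᵢ ℂ, φ '' K = D' :=
  main_theorem D h

end Pool.Agent.Results.MP_4eed4e_an.FiniteTransplantationClasses
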