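import Pool.Agent.Lib.MP_4eed4e_an_I.IPub
import Pool.Agent.Lib.MP_4eed4e_an_I.RMain

set_option autoImplicit false

/-!
# The 30-60-90 triangle is isolated in its isospectral class among all convex domains

`T3` is the open triangle with the vertices `(0, 0)`, `(√3, 0)`, `(√3, 1)` of the Euclidean plane
`E2`; its angles are `π/6`, `π/2`, `π/3`. `eig Ω k` is the `k`-th Dirichlet eigenvalue of the open
set `Ω` (min-max). There are `N` and `δ > 0` such that every open convex set `Ω` contained in the
`δ`-neighbourhood of `T3` which has the first `N` Dirichlet eigenvalues of `T3` and at least the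
area of `T3` is congruent to `T3`; instead of the assumption on the area one may assume that the
other eigenvalues of `Ω` do not exceed those of `T3`. In particular every convex domain isospectral
to `T3` and contained in the `δ`-neighbourhood of `T3` is congruent to `T3`. No regularity of the
boundary is assumed.
-/

namespace Pool.Agent.Results.MP_4eed4e_an.TriangleIsolated

open MeasureTheory Pool.Agent.MP4eed4eP Pool.Agent.MP4eed4eI

theorem result : ∃ (N : ℕ) (δ : ℝ), 0 < δ ∧ ∀ Ω : Set E2, IsOpen Ω → Convex ℝ Ω →
    Ω ⊆ Metric.thickening δ T3 → (∀ k, 1 ≤ k → k ≤ N → eig Ω k = eig T3 k) →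
    (volume T3 ≤ volume Ω ∨ ∀ k, N < k → eig Ω k ≤ eig T3 k) →
    ∃ φ : E2 ≃ᵢ E2, φ '' Ω = T3 :=
  main

end Pool.Agent.Results.MP_4eed4e_an.TriangleIsolated
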